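import Pool.Agent.L7h86.PS.Gor
import Pool.Agent.H826R3.SM.WAll

/-!
# Q1 and primitive Gorenstein algebras
-/

set_option autoImplicit false

namespace Pool.Agent.L7h86.PS

open Pool.Agent.H826R3.SM Pool.Agent.TH671.DU Pool.Agent.N86.SQ
open scoped TensorProduct
open MvPolynomial

variable {k : Type} [Field k]

/-- the class of all algebras -/
def univ (k : Type) [Field k] : Cls k := fun _ _ _ => True

theorem gor_apolar {σ : Type} {Φ : MvPolynomial σ k →ₗ[k] k} : Gor k (ApolarAlg Φ) := by
  obtain ⟨φ, hφ⟩ := exists_phi (Φ := Φ)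
  refine ⟨φ, fun a ha => ?_⟩
  obtain ⟨F, rfl⟩ := Ideal.Quotient.mk_surjective a
  rw [Ideal.Quotient.eq_zero_iff_mem]
  intro G
  have h1 := ha (Ideal.Quotient.mk _ G)
  rw [← map_mul, hφ] at h1
  exact h1

variable [IsAlgClosed k]

/-- a Gorenstein algebra which is decomposable is decomposable into Gorenstein algebras -/
theorem decomposable_gor {E : Type} [CommRing E] [Algebra k E] (hG : Gor k E)
    (h : Decomposable k (univ k) E) : Decomposable k (fun A _ _ => Gor k A) E := by
  by_cases hloc : IsLocalRing E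
  swap
  · exact Or.inl hloc
  refine Or.inr ?_
  rcases h with h | h | h
  · exact absurd hloc h
  · left
    obtain ⟨A, B, _, _, _, _, -, -, hA2, hB2, ⟨F⟩⟩ := h
    have hfA : Module.Finite k A := Module.finite_of_finrank_pos (by omega)
    have hfB : Module.Finite k B := Module.finite_of_finrank_pos (by omega)
    have hF := hG.congr F
    have hl : IsLocalRing (A ⊗[k] B) := F.toRingEquiv.isLocalRing
    have F' := Algebra.TensorProduct.comm k A B
    have hF' := hF.congr F'
    have hl' : IsLocalRing (B ⊗[k] A) := F'.toRingEquiv.isLocalRing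
    exact ⟨A, B, inferInstance, inferInstance, inferInstance, inferInstance,
      gor_base ((Module.finBasis k B).baseChange A) hF,
      gor_base ((Module.finBasis k A).baseChange B) hF', hA2, hB2, ⟨F⟩⟩
  · right
    obtain ⟨A, _, _, σ, S, _, _, _, _, m, -, hfA, hm, ⟨b, hb⟩, ⟨F⟩⟩ := h
    have hF := hG.congr F
    have hl : IsLocalRing (A ⊗[MvPolynomial σ k] S) := F.toRingEquiv.isLocalRing
    exact ⟨A, inferInstance, inferInstance, σ, S, inferInstance, inferInstance, inferInstance,
      inferInstance, m, gor_base (b.baseChange A) hF, hfA, hm, ⟨b, hb⟩, ⟨F⟩⟩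

/-- **Gorenstein algebras which are primitive among the Gorenstein algebras are primitive.** -/
theorem primitive_of_gor {A : Type} [CommRing A] [Algebra k A]
    (h : Primitive k (fun A _ _ => Gor k A) A) : Primitive k (univ k) A := by
  obtain ⟨hG, hl, hcl⟩ := h
  refine ⟨trivial, hl, fun hcon => hcl ?_⟩
  obtain ⟨d, c, hc⟩ := hcon
  obtain ⟨P₀, hP₀, hopen⟩ := gor_open c hG
  refine ⟨d, c, fun P hP => ?_⟩
  obtain ⟨E, _, _, c', ⟨-, hE⟩, hPE⟩ := hc (P * P₀) (by
    rw [map_mul]
    exact mul_ne_zero hP hP₀)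
  rw [map_mul] at hPE
  have h1 := hopen E c' (right_ne_zero_of_mul hPE)
  exact ⟨E, inferInstance, inferInstance, c', ⟨h1, decomposable_gor h1 hE⟩,
    left_ne_zero_of_mul hPE⟩

/-- **Bounds for Gorenstein algebras and for the primitive ones.** -/
theorem bound_gor_iff {τ : ℝ} (hτ : 1 ≤ τ) (D : ℕ) :
    (∀ (A : Type) [CommRing A] [Algebra k A] [Module.Finite k A] [Nontrivial A], Gor k A →
      Module.finrank k A ≤ D → Bound k τ A) ↔
    ∀ (A : Type) [CommRing A] [Algebra k A] [Module.Finite k A] [Nontrivial A],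
      Gor k A → Primitive k (univ k) A → Module.finrank k A ≤ D → Bound k τ A := by
  constructor
  · intro h A _ _ _ _ hA _ hD
    exact h A hA hD
  · intro h
    rw [bound_iff_primitive hτ (fun A _ _ => Gor k A) hasParts_gor D]
    intro A _ _ _ _ hA hD
    exact h A hA.1 (primitive_of_gor hA) hD

omit [IsAlgClosed k] in
theorem nontrivial_apolar {σ : Type} {Φ : MvPolynomial σ k →ₗ[k] k} (hΦ0 : Φ ≠ 0) :
    Nontrivial (ApolarAlg Φ) := by
  rw [Ideal.Quotient.nontrivial_iff]
  intro h
  apply hΦ0
  refine LinearMap.ext fun F => ?_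
  have h1 : (1 : MvPolynomial σ k) ∈ annOf Φ := by rw [h]; trivial
  have h2 := h1 F
  rwa [one_mul] at h2

/-- **From apolar algebras to local algebras.** -/
theorem bound_local {τ : ℝ} (hτ : 1 ≤ τ)
    (H : ∀ (σ : Type) [Finite σ] (s : ℕ) (Φ : MvPolynomial σ k →ₗ[k] k), IsDualForm s Φ → Φ ≠ 0 →
      Bound k τ (ApolarAlg Φ)) (A : Type) [CommRing A] [Algebra k A] [Module.Finite k A]
    [IsLocalRing A] : Bound k τ A := by
  classical
  obtain ⟨-, l, a, e, hgen, hnil⟩ := local_gens (k := k) A
  have hr := one_le_rate (k := k) A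
  have hd : 0 < Module.finrank k A := Module.finrank_pos
  set d : ℝ := (Module.finrank k A : ℝ) with hdd
  have hd1 : (1 : ℝ) ≤ d := by
    rw [hdd]
    exact_mod_cast hd
  have hτ0 : 0 < τ := by linarith
  have key : ∀ c : ℝ, 1 < c → rate k A ≤ (c * d) ^ τ := by
    intro c hc
    obtain ⟨N, hN, hNc⟩ := exists_N e hc
    have hntN := nontrivial_pow (k := k) A N
    obtain ⟨σ, hσ, Φ, hΦ, hΦ0, hfinG, hrank, q, hq⟩ := exists_apolar ((e + 1) * N)
      (fun v : Fin N × Fin l => sg k A v.1 (a v.2)) (adjoin_pow hgen N) (nil_pow a e hnil N)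
    have hntΦ := nontrivial_apolar hΦ0
    have h1 : rate k A ^ N ≤ rate k (ApolarAlg Φ) := by
      rw [← rate_pow' A N]
      exact rate_of_surjective q hq
    have h2 : (Module.finrank k (ApolarAlg Φ) : ℝ) ≤ (c * d) ^ N := by
      rw [finrank_Pow'] at hrank
      calc (Module.finrank k (ApolarAlg Φ) : ℝ) ≤ 2 * ((e + 1) * N + 1) ^ 2 * d ^ N := by
            rw [hdd]
            exact_mod_cast hrank
        _ ≤ c ^ N * d ^ N := mul_le_mul_of_nonneg_right hNc (by positivity)
        _ = (c * d) ^ N := (mul_pow _ _ _).symm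
    have h3 : rate k A ^ N ≤ ((c * d) ^ τ) ^ N := by
      refine h1.trans ((H σ _ Φ hΦ hΦ0).trans ?_)
      refine (Real.rpow_le_rpow (Nat.cast_nonneg _) h2 hτ0.le).trans (le_of_eq ?_)
      rw [← Real.rpow_natCast, ← Real.rpow_natCast, ← Real.rpow_mul (by positivity),
        ← Real.rpow_mul (by positivity), mul_comm (N : ℝ) τ]
    exact (pow_le_pow_iff_left₀ (by linarith) (by positivity) hN.ne').1 h3
  have hcont : Filter.Tendsto (fun c : ℝ => (c * d) ^ τ) (nhdsWithin 1 (Set.Ioi 1))
      (nhds ((1 * d) ^ τ)) := by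
    have h1 : Continuous fun c : ℝ => (c * d) ^ τ :=
      (continuous_id.mul continuous_const).rpow_const fun _ => Or.inr hτ0.le
    exact (h1.tendsto 1).mono_left nhdsWithin_le_nhds
  rw [one_mul] at hcont
  exact ge_of_tendsto hcont (eventually_nhdsWithin_of_forall fun c hc => key c hc)

/-- **From local algebras to all algebras.** -/
theorem bound_all {τ : ℝ} (hτ : 1 ≤ τ)
    (H : ∀ (A : Type) [CommRing A] [Algebra k A] [Module.Finite k A] [IsLocalRing A],
      Bound k τ A) (n : ℕ) :
    ∀ (A : Type) [CommRing A] [Algebra k A] [Module.Finite k A] [Nontrivial A],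
      Module.finrank k A = n → Bound k τ A := by
  induction n using Nat.strong_induction_on with
  | _ n ih =>
    intro A _ _ _ _ hn
    by_cases hloc : IsLocalRing A
    · exact H A
    obtain ⟨B, B', _, _, _, _, hB1, hB2, hB'1, hB'2, ⟨F⟩, hs⟩ := exists_split (k := k) A hloc
    have hp1 : 0 < Module.finrank k B := Module.finrank_pos
    have hp2 : 0 < Module.finrank k B' := Module.finrank_pos
    exact bound_congr F.symm (bound_prod hτ (ih _ (by omega) B rfl) (ih _ (by omega) B' rfl))

/-- **Bounds and primitive Gorenstein algebras.** -/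
theorem bound_all_iff (k : Type) [Field k] [IsAlgClosed k] {τ : ℝ} (hτ : 1 ≤ τ) :
    (∀ (A : Type) [CommRing A] [Algebra k A] [Module.Finite k A] [Nontrivial A], Bound k τ A) ↔
    ∀ (A : Type) [CommRing A] [Algebra k A] [Module.Finite k A] [Nontrivial A],
      Gor k A → Primitive k (univ k) A → Bound k τ A := by
  constructor
  · intro h A _ _ _ _ _ _
    exact h A
  · intro h A _ _ _ _
    refine bound_all hτ (fun A _ _ _ _ => bound_local hτ ?_ A) _ A rfl
    intro σ _ s Φ hΦ hΦ0
    have := Fintype.ofFinite σ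
    have : Infinite k := IsAlgClosed.instInfinite
    have h1 := finite_apolar hΦ
    have h2 := nontrivial_apolar hΦ0
    refine (bound_gor_iff hτ (Module.finrank k (ApolarAlg Φ))).2 ?_ (ApolarAlg Φ) gor_apolar le_rfl
    intro A _ _ _ _ hA hP _
    exact h A hA hP

end Pool.Agent.L7h86.PS
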