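import Pool.Agent.L7h86.PS.Defs

/-!
# Reduction of Q1 to primitive algebras
-/

set_option autoImplicit false

namespace Pool.Agent.L7h86.PS

open Pool.Agent.H826R3.SM Pool.Agent.TH671.DU Pool.Agent.N86.SQ
open scoped TensorProduct
open MvPolynomial

variable {k : Type} [Field k]

/-- an algebra with a basis -/
structure Alg (k : Type) [Field k] (d : ℕ) where
  E : Type
  cr : CommRing E
  al : Algebra k E
  c : Module.Basis (Fin d) k E

attribute [instance] Alg.cr Alg.al

variable [IsAlgClosed k]

/-- the growth rate in the closure -/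
theorem rate_le_of_closure {Z : Cls k} {A : Type} [CommRing A] [Algebra k A] [IsLocalRing A]
    (h : InClosure k Z A) (x : ℝ)
    (hZ : ∀ (E : Type) [CommRing E] [Algebra k E] [Module.Finite k E] [Nontrivial E], Z E →
      Module.finrank k E = Module.finrank k A → rate k E ≤ x) : rate k A ≤ x := by
  classical
  obtain ⟨d, c, hc⟩ := h
  have hfin : Module.Finite k A := Module.Finite.of_basis c
  have hd : Module.finrank k A = d := by
    rw [Module.finrank_eq_card_basis c, Fintype.card_fin]
  have hd0 : 0 < d := by
    rw [← hd]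
    exact Module.finrank_pos
  have hc' : ∀ P : {P : MvPolynomial (PIdx d) k // eval (par c) P ≠ 0},
      ∃ e : Alg k d, Z e.E ∧ eval (par e.c) P.1 ≠ 0 := by
    rintro ⟨P, hP⟩
    obtain ⟨E, _, _, c', h1, h2⟩ := hc P hP
    exact ⟨⟨E, inferInstance, inferInstance, c'⟩, h1, h2⟩
  choose f hf1 hf2 using hc'
  let Y : Type := Option {P : MvPolynomial (PIdx d) k // eval (par c) P ≠ 0}
  let F : Y → Alg k d := fun y => match y with
    | none => ⟨A, inferInstance, inferInstance, c⟩
    | some P => f P
  let E : Y → Type := fun y => (F y).E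
  let _ : ∀ y, CommRing (E y) := fun y => (F y).cr
  let _ : ∀ y, Algebra k (E y) := fun y => (F y).al
  let cc : ∀ y, Module.Basis (Fin d) k (E y) := fun y => (F y).c
  have hlocal : IsLocalRing (E none) := inferInstanceAs (IsLocalRing A)
  have key : rate k (E none) ≤ x := by
    refine closure_rate cc none
      (fun P : {P : MvPolynomial (PIdx d) k // eval (par c) P ≠ 0} => some P) ?_ ?_
    · intro Q hQ
      by_contra hcon
      exact hf2 ⟨Q, hcon⟩ (hQ ⟨Q, hcon⟩)
    · intro P
      have h1 : Module.Finite k (f P).E := Module.Finite.of_basis (f P).c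
      have h2 : Module.finrank k (f P).E = d := by
        rw [Module.finrank_eq_card_basis (f P).c, Fintype.card_fin]
      have h3 : Nontrivial (f P).E := Module.nontrivial_of_finrank_pos (R := k) (by
        rw [h2]
        exact hd0)
      exact hZ (f P).E (hf1 P) (by rw [h2, hd])
  exact key

/-- The growth rate of `Spec A` is at most the power of the degree with the exponent `τ`. -/
def Bound (k : Type) [Field k] (τ : ℝ) (A : Type) [CommRing A] [Algebra k A] : Prop :=
  rate k A ≤ (Module.finrank k A : ℝ) ^ τ

theorem bound_one {A : Type} [CommRing A] [Algebra k A] [Module.Finite k A] [Nontrivial A] :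
    Bound k 1 A ↔ QOne k A := by
  rw [qOne_iff_rate]
  unfold Bound
  rw [Real.rpow_one]
  exact ⟨fun h => le_antisymm h (finrank_le_rate A), fun h => h.le⟩

theorem bound_congr {τ : ℝ} {A B : Type} [CommRing A] [Algebra k A] [Module.Finite k A]
    [Nontrivial A] [CommRing B] [Algebra k B] [Module.Finite k B] [Nontrivial B] (e : A ≃ₐ[k] B)
    (h : Bound k τ A) : Bound k τ B := by
  unfold Bound at h ⊢
  rw [← e.toLinearEquiv.finrank_eq]
  exact (TH671.DU.rate_congr e).symm.le.trans h

theorem bound_prod {τ : ℝ} (hτ : 1 ≤ τ) {A B : Type} [CommRing A] [Algebra k A]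
    [Module.Finite k A] [Nontrivial A] [CommRing B] [Algebra k B] [Module.Finite k B]
    [Nontrivial B] (hA : Bound k τ A) (hB : Bound k τ B) : Bound k τ (A × B) := by
  unfold Bound at hA hB ⊢
  refine (rate_prod_le A B).trans ((add_le_add hA hB).trans ?_)
  rw [Module.finrank_prod]
  push_cast
  exact Real.add_rpow_le_rpow_add (by positivity) (by positivity) hτ

omit [IsAlgClosed k] in
/-- a scheme which is not connected is the disjoint union of two smaller ones -/
theorem exists_split (A : Type) [CommRing A] [Algebra k A] [Module.Finite k A] [Nontrivial A]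
    (hloc : ¬ IsLocalRing A) : ∃ (B C : Type) (_ : CommRing B) (_ : Algebra k B)
      (_ : CommRing C) (_ : Algebra k C), Module.Finite k B ∧ Nontrivial B ∧ Module.Finite k C ∧
        Nontrivial C ∧ Nonempty (A ≃ₐ[k] B × C) ∧
        Module.finrank k A = Module.finrank k B + Module.finrank k C := by
  have hart : IsArtinianRing A := IsArtinianRing.of_finite k A
  obtain ⟨e, he, hu, hu'⟩ := exists_idem hloc
  let f : A →ₐ[k] (A ⧸ Ideal.span {e}) × (A ⧸ Ideal.span {1 - e}) :=
    (Ideal.Quotient.mkₐ k (Ideal.span {e})).prod (Ideal.Quotient.mkₐ k (Ideal.span {1 - e}))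
  have hf : Function.Bijective f := crt_bijective e he
  let F := AlgEquiv.ofBijective f hf
  have hnt1 : Nontrivial (A ⧸ Ideal.span {e}) := by
    rw [Ideal.Quotient.nontrivial_iff, Ne, Ideal.span_singleton_eq_top]
    exact hu
  have hnt2 : Nontrivial (A ⧸ Ideal.span {1 - e}) := by
    rw [Ideal.Quotient.nontrivial_iff, Ne, Ideal.span_singleton_eq_top]
    exact hu'
  refine ⟨A ⧸ Ideal.span {e}, A ⧸ Ideal.span {1 - e}, inferInstance, inferInstance,
    inferInstance, inferInstance, inferInstance, hnt1, inferInstance, hnt2, ⟨F⟩, ?_⟩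
  rw [F.toLinearEquiv.finrank_eq, Module.finrank_prod]

/-- the bound for a decomposable algebra follows from the bound for smaller ones -/
theorem bound_of_decomposable {τ : ℝ} (hτ : 1 ≤ τ) {C : Cls k} (hC : HasParts k C) (d : ℕ)
    (ih : ∀ (A : Type) [CommRing A] [Algebra k A] [Module.Finite k A] [Nontrivial A], C A →
      Module.finrank k A < d → Bound k τ A)
    (E : Type) [CommRing E] [Algebra k E] [Module.Finite k E] [Nontrivial E]
    (hE : C E) (hd : Module.finrank k E = d) (h : Decomposable k C E) : Bound k τ E := by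
  rcases h with h | h | h
  · obtain ⟨B, B', _, _, _, _, hB1, hB2, hB'1, hB'2, ⟨F⟩, hs⟩ := exists_split (k := k) E h
    have hp1 : 0 < Module.finrank k B := Module.finrank_pos
    have hp2 : 0 < Module.finrank k B' := Module.finrank_pos
    obtain ⟨g1, g2⟩ := hC E B B' ⟨F⟩ hE
    exact bound_congr F.symm (bound_prod hτ (ih B g1 (by omega)) (ih B' g2 (by omega)))
  · obtain ⟨A, B, _, _, _, _, hA, hB, hA2, hB2, ⟨F⟩⟩ := h
    have hfA : Module.Finite k A := Module.finite_of_finrank_pos (by omega)
    have hfB : Module.Finite k B := Module.finite_of_finrank_pos (by omega)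
    have hnA : Nontrivial A := Module.nontrivial_of_finrank_pos (R := k) (by omega)
    have hnB : Nontrivial B := Module.nontrivial_of_finrank_pos (R := k) (by omega)
    have hF : Module.finrank k A * Module.finrank k B = d := by
      rw [← hd, F.toLinearEquiv.finrank_eq, Module.finrank_tensorProduct]
    have h1 : Module.finrank k A < d := by nlinarith
    have h2 : Module.finrank k B < d := by nlinarith
    have hnt : Nontrivial (A ⊗[k] B) := F.injective.nontrivial
    have g1 := ih A hA h1
    have g2 := ih B hB h2
    refine bound_congr F.symm ?_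
    unfold Bound at g1 g2 ⊢
    have hA1 := one_le_rate (k := k) A
    have hB1 := one_le_rate (k := k) B
    refine (Pool.Agent.R836.Emb.rate_tensor_le A B).trans ?_
    rw [Module.finrank_tensorProduct]
    push_cast
    rw [Real.mul_rpow (by positivity) (by positivity)]
    exact mul_le_mul g1 g2 (by linarith) (by positivity)
  · obtain ⟨A, _, _, σ, S, _, _, _, _, m, hA, hfA, hm, ⟨b, hb⟩, ⟨F⟩⟩ := h
    obtain ⟨hfin, hd'⟩ := Pool.Agent.R566.CV.finite_pullback (k := k) (A := A) b
    have hF : m * Module.finrank k A = d := by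
      rw [← hd, F.toLinearEquiv.finrank_eq, hd']
    have hd0 : 0 < d := by
      rw [← hd]
      exact Module.finrank_pos
    have h0 : 0 < Module.finrank k A := by
      rcases Nat.eq_zero_or_pos (Module.finrank k A) with h | h
      · rw [h, mul_zero] at hF
        omega
      · exact h
    have h1 : Module.finrank k A < d := by nlinarith
    have hnA : Nontrivial A := Module.nontrivial_of_finrank_pos (R := k) h0
    have hnt : Nontrivial (A ⊗[MvPolynomial σ k] S) := F.injective.nontrivial
    have h2 : ∀ n, mdeg k (Pow k (A ⊗[MvPolynomial σ k] S) n) ≤ m ^ n * mdeg k (Pow k A n) :=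
      fun n => Pool.Agent.R566.CV.mdeg_pullback b hb (AlgHom.id k _) Function.surjective_id n
    have g1 := ih A hA h1
    refine bound_congr F.symm ?_
    unfold Bound at g1 ⊢
    refine (Pool.Agent.R566.CV.rate_le_of_mdeg m h2).trans ?_
    rw [hd']
    push_cast
    rw [Real.mul_rpow (by positivity) (by positivity)]
    have hm1 : (1 : ℝ) ≤ m := by exact_mod_cast (by omega : 1 ≤ m)
    have hmm : (m : ℝ) ≤ (m : ℝ) ^ τ := by
      conv_lhs => rw [← Real.rpow_one (m : ℝ)]
      exact Real.rpow_le_rpow_of_exponent_le hm1 hτ
    exact mul_le_mul hmm g1 (by linarith [one_le_rate (k := k) A]) (by positivity)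

/-- **Reduction to primitive algebras.** -/
theorem bound_of_primitive {τ : ℝ} (hτ : 1 ≤ τ) (C : Cls k) (hC : HasParts k C) (D : ℕ)
    (Z : Cls k)
    (hZ : ∀ (A : Type) [CommRing A] [Algebra k A] [Module.Finite k A] [Nontrivial A], Z A →
      Module.finrank k A ≤ D → Bound k τ A)
    (hp : ∀ (A : Type) [CommRing A] [Algebra k A] [Module.Finite k A] [Nontrivial A],
      Primitive k C A → Module.finrank k A ≤ D → InClosure k Z A) (d : ℕ) :
    ∀ (A : Type) [CommRing A] [Algebra k A] [Module.Finite k A] [Nontrivial A], C A →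
      Module.finrank k A = d → d ≤ D → Bound k τ A := by
  induction d using Nat.strong_induction_on with
  | _ d ih =>
    intro A _ _ _ _ hA hd hD
    have ih' : ∀ (B : Type) [CommRing B] [Algebra k B] [Module.Finite k B] [Nontrivial B], C B →
        Module.finrank k B < d → Bound k τ B := by
      intro B _ _ _ _ hB hlt
      exact ih _ hlt B hB rfl (by omega)
    by_cases hloc : IsLocalRing A
    · by_cases hpr : Primitive k C A
      · refine rate_le_of_closure (hp A hpr (by omega)) _ fun E _ _ _ _ hE hdE => ?_
        rw [← hdE]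
        exact hZ E hE (by omega)
      · have hcl : InClosure k (fun E _ _ => C E ∧ Decomposable k C E) A := by
          by_contra hcon
          exact hpr ⟨hA, hloc, hcon⟩
        refine rate_le_of_closure hcl _ fun E _ _ _ _ hE hdE => ?_
        rw [← hdE]
        exact bound_of_decomposable hτ hC d ih' E hE.1 (by omega) hE.2
    · exact bound_of_decomposable hτ hC d ih' A hA hd (Or.inl hloc)

omit [IsAlgClosed k] in
theorem inClosure_self {Z : Cls k} {A : Type} [CommRing A] [Algebra k A] [Module.Finite k A]
    (h : Z A) : InClosure k Z A :=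
  ⟨_, Module.finBasis k A, fun _ hP => ⟨A, inferInstance, inferInstance, Module.finBasis k A, h, hP⟩⟩

/-- **The bound for a class and for its primitive members.** -/
theorem bound_iff_primitive {τ : ℝ} (hτ : 1 ≤ τ) (C : Cls k) (hC : HasParts k C) (D : ℕ) :
    (∀ (A : Type) [CommRing A] [Algebra k A] [Module.Finite k A] [Nontrivial A], C A →
      Module.finrank k A ≤ D → Bound k τ A) ↔
    ∀ (A : Type) [CommRing A] [Algebra k A] [Module.Finite k A] [Nontrivial A],
      Primitive k C A → Module.finrank k A ≤ D → Bound k τ A := by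
  constructor
  · intro h A _ _ _ _ hA hD
    exact h A hA.1 hD
  · intro h A _ _ _ _ hA hD
    exact bound_of_primitive hτ C hC D (fun A _ _ => Primitive k C A) h
      (fun A _ _ _ _ hA _ => inClosure_self hA) _ A hA rfl hD

end Pool.Agent.L7h86.PS
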