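import Pool.Agent.N86.SQ.Clo3
import Pool.Agent.N86.SQ.Rate
import Pool.Agent.R566.CV.Kum
import Pool.Agent.R566.CV.Sub
import Pool.Agent.R836.Emb

/-!
# Decomposable and primitive algebras
-/

set_option autoImplicit false

namespace Pool.Agent.L7h86.PS

open Pool.Agent.H826R3.SM Pool.Agent.TH671.DU Pool.Agent.N86.SQ
open scoped TensorProduct
open MvPolynomial

/-- Classes (properties) of commutative `k`-algebras. -/
abbrev Cls (k : Type) [Field k] : Type 1 := ∀ (A : Type) [CommRing A] [Algebra k A], Prop

/-- `S` is free of rank `m` over the polynomial ring `k[σ]`, with nonzero discriminant: `Spec S` is a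
finite flat cover of degree `m` of an affine space, étale over a nonempty open subset. -/
def IsCover (k σ S : Type) [Field k] [CommRing S] [Algebra (MvPolynomial σ k) S] (m : ℕ) : Prop :=
  ∃ b : Module.Basis (Fin m) (MvPolynomial σ k) S, Algebra.discr (MvPolynomial σ k) b ≠ 0

/-- `Spec E` is a product of two finite schemes of degree at least two of the class `C`. -/
def IsProduct (k : Type) [Field k] (C : Cls k) (E : Type) [CommRing E] [Algebra k E] : Prop :=
  ∃ (A B : Type) (_ : CommRing A) (_ : Algebra k A) (_ : CommRing B) (_ : Algebra k B),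
    C A ∧ C B ∧ 2 ≤ Module.finrank k A ∧ 2 ≤ Module.finrank k B ∧ Nonempty (E ≃ₐ[k] A ⊗[k] B)

/-- `Spec E` is a cover of degree `m ≥ 2` of a finite scheme `Spec A` of the class `C`, the pull-back
of a cover `Spec S` of an affine space under a morphism from `Spec A` to the affine space. -/
def IsPullback (k : Type) [Field k] (C : Cls k) (E : Type) [CommRing E] [Algebra k E] : Prop :=
  ∃ (A : Type) (_ : CommRing A) (_ : Algebra k A) (σ S : Type) (_ : CommRing S)
    (_ : Algebra (MvPolynomial σ k) S) (_ : Algebra (MvPolynomial σ k) A)
    (_ : IsScalarTower k (MvPolynomial σ k) A) (m : ℕ),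
    C A ∧ Module.Finite k A ∧ 2 ≤ m ∧ IsCover k σ S m ∧
      Nonempty (E ≃ₐ[k] A ⊗[MvPolynomial σ k] S)

/-- `Spec E` is not connected, or a product, or a cover, of smaller schemes of the class `C`. -/
def Decomposable (k : Type) [Field k] (C : Cls k) (E : Type) [CommRing E] [Algebra k E] : Prop :=
  ¬ IsLocalRing E ∨ IsProduct k C E ∨ IsPullback k C E

/-- `A`, with a suitable basis of `d` elements, lies in the Zariski closure of the algebras of the
class `Z` with bases of `d` elements: every polynomial in the structure constants and in the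
coordinates of the unit which is not zero for `A` is not zero for some algebra of the class `Z` with
a basis. -/
def InClosure (k : Type) [Field k] (Z : Cls k) (A : Type) [CommRing A] [Algebra k A] : Prop :=
  ∃ (d : ℕ) (c : Module.Basis (Fin d) k A), ∀ P : MvPolynomial (PIdx d) k, eval (par c) P ≠ 0 →
    ∃ (E : Type) (_ : CommRing E) (_ : Algebra k E) (c' : Module.Basis (Fin d) k E),
      Z E ∧ eval (par c') P ≠ 0

/-- `A` is a local algebra of the class `C` which does not lie in the Zariski closure of the
decomposable algebras of the class `C`. -/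
def Primitive (k : Type) [Field k] (C : Cls k) (A : Type) [CommRing A] [Algebra k A] : Prop :=
  C A ∧ IsLocalRing A ∧ ¬ InClosure k (fun E _ _ => C E ∧ Decomposable k C E) A

/-- The class `C` contains, with a disjoint union, the two parts. -/
def HasParts (k : Type) [Field k] (C : Cls k) : Prop :=
  ∀ (E A B : Type) [CommRing E] [Algebra k E] [CommRing A] [Algebra k A] [Nontrivial A]
    [CommRing B] [Algebra k B] [Nontrivial B], Nonempty (E ≃ₐ[k] A × B) → C E → C A ∧ C B

end Pool.Agent.L7h86.PS
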