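import Pool.Agent.L7h86.PS.Red

/-!
# Gorenstein algebras
-/

set_option autoImplicit false

namespace Pool.Agent.L7h86.PS

open Pool.Agent.H826R3.SM Pool.Agent.TH671.DU Pool.Agent.N86.SQ
open scoped TensorProduct
open MvPolynomial

/-- `A` is a Gorenstein algebra: there is a linear form `φ` on `A` such that the bilinear form
`φ (a * b)` is nondegenerate. -/
def Gor (k : Type) [Field k] (A : Type) [CommRing A] [Algebra k A] : Prop :=
  ∃ φ : A →ₗ[k] k, ∀ a : A, (∀ b : A, φ (a * b) = 0) → a = 0

variable {k : Type} [Field k]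

theorem Gor.congr {A B : Type} [CommRing A] [Algebra k A] [CommRing B] [Algebra k B]
    (h : Gor k A) (e : A ≃ₐ[k] B) : Gor k B := by
  obtain ⟨φ, hφ⟩ := h
  refine ⟨φ ∘ₗ e.symm.toLinearMap, fun a ha => ?_⟩
  have h1 : e.symm a = 0 := by
    refine hφ _ fun b => ?_
    have h2 := ha (e b)
    change φ (e.symm (a * e b)) = 0 at h2
    rwa [map_mul, e.symm_apply_apply] at h2
  have h3 := congrArg e h1
  rwa [e.apply_symm_apply, map_zero] at h3

theorem Gor.fst {A B : Type} [CommRing A] [Algebra k A] [CommRing B] [Algebra k B]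
    (h : Gor k (A × B)) : Gor k A := by
  obtain ⟨φ, hφ⟩ := h
  refine ⟨φ ∘ₗ LinearMap.inl k A B, fun a ha => ?_⟩
  have h1 : ((a, 0) : A × B) = 0 := by
    refine hφ _ fun b => ?_
    have h2 := ha b.1
    rw [LinearMap.comp_apply, LinearMap.inl_apply] at h2
    have h3 : ((a, 0) : A × B) * b = (a * b.1, 0) := by
      ext
      · rfl
      · simp
    rw [h3]
    exact h2
  exact (Prod.mk_eq_zero.1 h1).1

theorem hasParts_gor : HasParts k (fun A _ _ => Gor k A) := by
  intro E A B _ _ _ _ _ _ _ _ ⟨e⟩ h
  have h1 := h.congr e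
  have e2 : (A × B) ≃ₐ[k] (B × A) :=
    AlgEquiv.ofBijective ((AlgHom.snd k A B).prod (AlgHom.fst k A B))
      ⟨fun x y hxy => by
        have h2 := Prod.mk.inj hxy
        exact Prod.ext h2.2 h2.1, fun x => ⟨(x.2, x.1), rfl⟩⟩
  exact ⟨h1.fst, (h1.congr e2).fst⟩

section openness

/-- the polynomial whose values are the determinants of the forms `∑ α m * (coordinate m)` -/
noncomputable def gpol {d : ℕ} (α : Fin d → k) : MvPolynomial (PIdx d) k :=
  Matrix.det (Matrix.of fun i j : Fin d => ∑ m, C (α m) * X (Sum.inl (i, j, m)))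

theorem eval_gpol {d : ℕ} (α : Fin d → k) {E : Type} [CommRing E] [Algebra k E]
    (c : Module.Basis (Fin d) k E) : eval (par c) (gpol α) =
      Matrix.det (Matrix.of fun i j : Fin d => c.constr k α (c i * c j)) := by
  unfold gpol
  rw [RingHom.map_det]
  congr 1
  ext i j
  simp only [RingHom.mapMatrix_apply, Matrix.map_apply, Matrix.of_apply, map_sum, map_mul, eval_C,
    eval_X]
  rw [Module.Basis.constr_apply_fintype]
  refine Finset.sum_congr rfl fun m _ => ?_
  rw [smul_eq_mul, mul_comm]
  rfl

theorem nondeg_iff {d : ℕ} {E : Type} [CommRing E] [Algebra k E]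
    (c : Module.Basis (Fin d) k E) (φ : E →ₗ[k] k) :
    Matrix.det (Matrix.of fun i j : Fin d => φ (c i * c j)) ≠ 0 ↔
      ∀ a : E, (∀ b : E, φ (a * b) = 0) → a = 0 := by
  have key : ∀ v : Fin d → k, (Matrix.of fun i j : Fin d => φ (c i * c j)).mulVec v = 0 ↔
      ∀ b : E, φ ((∑ j, v j • c j) * b) = 0 := by
    intro v
    have h1 : ∀ i, (Matrix.of fun i j : Fin d => φ (c i * c j)).mulVec v i =
        φ ((∑ j, v j • c j) * c i) := by
      intro i
      rw [Finset.sum_mul, map_sum]
      change ∑ j, φ (c i * c j) * v j = _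
      refine Finset.sum_congr rfl fun j _ => ?_
      rw [smul_mul_assoc, map_smul, smul_eq_mul, mul_comm (c j), mul_comm (v j)]
    constructor
    · intro h b
      rw [← c.sum_repr b, Finset.mul_sum, map_sum]
      refine Finset.sum_eq_zero fun i _ => ?_
      rw [mul_smul_comm, map_smul, ← h1 i, h, Pi.zero_apply, smul_zero]
    · intro h
      funext i
      rw [h1, h, Pi.zero_apply]
  constructor
  · intro h a ha
    by_contra hne
    apply h
    rw [← Matrix.exists_mulVec_eq_zero_iff]
    refine ⟨fun j => c.repr a j, ?_, ?_⟩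
    · intro h0
      apply hne
      rw [← c.sum_repr a]
      refine Finset.sum_eq_zero fun j _ => ?_
      rw [show c.repr a j = 0 from congrFun h0 j, zero_smul]
    · rw [key]
      intro b
      rw [c.sum_repr a]
      exact ha b
  · intro h h0
    obtain ⟨v, hv, hv0⟩ := Matrix.exists_mulVec_eq_zero_iff.2 h0
    apply hv
    have h1 := h _ ((key v).1 hv0)
    funext j
    have h2 := congrArg (fun x => c.repr x j) h1
    simpa [Finsupp.single_apply] using h2

/-- **The Gorenstein locus is open.** -/
theorem gor_open {d : ℕ} {A : Type} [CommRing A] [Algebra k A] (c : Module.Basis (Fin d) k A)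
    (h : Gor k A) : ∃ P : MvPolynomial (PIdx d) k, eval (par c) P ≠ 0 ∧
      ∀ (E : Type) [CommRing E] [Algebra k E] (c' : Module.Basis (Fin d) k E),
        eval (par c') P ≠ 0 → Gor k E := by
  obtain ⟨φ, hφ⟩ := h
  refine ⟨gpol fun m => φ (c m), ?_, fun E _ _ c' hc' => ?_⟩
  · have h1 : c.constr k (fun m => φ (c m)) = φ := by
      refine c.ext fun m => ?_
      rw [Module.Basis.constr_basis]
    rw [eval_gpol, h1, nondeg_iff]
    exact hφ
  · rw [eval_gpol, nondeg_iff] at hc'
    exact ⟨_, hc'⟩

end openness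

section base

variable [IsAlgClosed k]

/-- **Bases of free extensions of Gorenstein algebras are Gorenstein.** -/
theorem gor_base {A E : Type} [CommRing A] [Algebra k A] [CommRing E] [Algebra k E] [Algebra A E]
    [IsScalarTower k A E] [Module.Finite k A] [IsLocalRing E] {m : ℕ}
    (b : Module.Basis (Fin m) A E) (h : Gor k E) : Gor k A := by
  classical
  obtain ⟨φ, hφ⟩ := h
  have hnt : Nontrivial A := (algebraMap A E).domain_nontrivial
  have hart : IsArtinianRing A := IsArtinianRing.of_finite k A
  have hm : 0 < m := by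
    rcases Nat.eq_zero_or_pos m with rfl | h
    · exfalso
      have : Subsingleton E := b.repr.toEquiv.subsingleton
      exact one_ne_zero (Subsingleton.elim (1 : E) 0)
    · exact h
  have hinj : ∀ a : A, algebraMap A E a = 0 → a = 0 := by
    intro a ha
    have h1 : a • b ⟨0, hm⟩ = 0 := by
      rw [Algebra.smul_def, ha, zero_mul]
    have h2 := congrArg (fun x => b.repr x ⟨0, hm⟩) h1
    simpa using h2
  have hlh : IsLocalHom (algebraMap A E) := by
    refine ⟨fun a ha => ?_⟩
    by_contra hcon
    have h1 : a ∉ nonZeroDivisors A := fun h => hcon (IsArtinianRing.isUnit_of_mem_nonZeroDivisors h)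
    rw [mem_nonZeroDivisors_iff_right] at h1
    push Not at h1
    obtain ⟨x, hx, hx0⟩ := h1
    apply hx0
    apply hinj
    have h2 : algebraMap A E x * algebraMap A E a = 0 := by rw [← map_mul, hx, map_zero]
    exact (ha.mul_left_eq_zero).1 h2
  have hlocal : IsLocalRing A := RingHom.domain_isLocalRing (algebraMap A E)
  set M := IsLocalRing.maximalIdeal A with hM
  -- every element is a constant plus an element of the maximal ideal
  have hres : ∀ a : A, ∃ c : k, a - algebraMap k A c ∈ M := by
    intro a
    let _ : Field (A ⧸ M) := Ideal.Quotient.field M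
    have hbij : Function.Bijective (algebraMap k (A ⧸ M)) :=
      IsAlgClosed.algebraMap_bijective_of_isIntegral
    obtain ⟨c, hc⟩ := hbij.2 (Ideal.Quotient.mk M a)
    refine ⟨c, ?_⟩
    rw [← Ideal.Quotient.eq, ← hc]
    rfl
  -- the socle has dimension one
  have hsoc : ∀ s t : A, (∀ x ∈ M, x * s = 0) → (∀ x ∈ M, x * t = 0) → s ≠ 0 →
      ∃ c : k, t = c • s := by
    intro s t hs ht hs0
    let L : ((Fin m → k) × (Fin m → k)) →ₗ[k] (Fin m → k) :=
      LinearMap.pi fun j =>
        ((∑ i, (LinearMap.proj i : (Fin m → k) →ₗ[k] k).smulRight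
            (φ ((algebraMap A E s * b i) * b j))) ∘ₗ LinearMap.fst k _ _) +
        ((∑ i, (LinearMap.proj i : (Fin m → k) →ₗ[k] k).smulRight
            (φ ((algebraMap A E t * b i) * b j))) ∘ₗ LinearMap.snd k _ _)
    have hker : LinearMap.ker L ≠ ⊥ := by
      refine LinearMap.ker_ne_bot_of_finrank_lt ?_
      rw [Module.finrank_prod, Module.finrank_fin_fun]
      omega
    obtain ⟨⟨u, v⟩, huv, huv0⟩ := (Submodule.ne_bot_iff _).1 hker
    rw [LinearMap.mem_ker] at huv
    let x : E := ∑ i, (u i • s + v i • t) • b i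
    have hx1 : ∀ j, φ (x * b j) = 0 := by
      intro j
      have h1 := congrFun huv j
      rw [Pi.zero_apply] at h1
      rw [← h1]
      change φ ((∑ i, (u i • s + v i • t) • b i) * b j) = L (u, v) j
      rw [Finset.sum_mul, map_sum]
      change _ = (∑ i, (LinearMap.proj i : (Fin m → k) →ₗ[k] k).smulRight
            (φ ((algebraMap A E s * b i) * b j))) u +
          (∑ i, (LinearMap.proj i : (Fin m → k) →ₗ[k] k).smulRight
            (φ ((algebraMap A E t * b i) * b j))) v
      rw [LinearMap.sum_apply, LinearMap.sum_apply, ← Finset.sum_add_distrib]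
      refine Finset.sum_congr rfl fun i _ => ?_
      change _ = u i • φ ((algebraMap A E s * b i) * b j) +
        v i • φ ((algebraMap A E t * b i) * b j)
      have hid : ((u i • s + v i • t) • b i) * b j = u i • ((algebraMap A E s * b i) * b j) +
          v i • ((algebraMap A E t * b i) * b j) := by
        rw [add_smul, add_mul, smul_assoc, smul_assoc, Algebra.smul_def s, Algebra.smul_def t,
          Algebra.smul_mul_assoc (u i), Algebra.smul_mul_assoc (v i)]
      rw [hid, map_add, map_smul, map_smul]
    have hx2 : ∀ n ∈ M, algebraMap A E n * x = 0 := by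
      intro n hn
      change algebraMap A E n * ∑ i, (u i • s + v i • t) • b i = 0
      rw [Finset.mul_sum]
      refine Finset.sum_eq_zero fun i _ => ?_
      rw [← Algebra.smul_def, smul_smul, mul_add, mul_smul_comm, mul_smul_comm, hs n hn, ht n hn,
        smul_zero, smul_zero, add_zero, zero_smul]
    have hx0 : x = 0 := by
      refine hφ x fun y => ?_
      rw [← b.sum_repr y, Finset.mul_sum, map_sum]
      refine Finset.sum_eq_zero fun j _ => ?_
      obtain ⟨c, hc⟩ := hres (b.repr y j)
      have h1 : b.repr y j • b j = c • b j + (algebraMap A E (b.repr y j - algebraMap k A c)) *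
          b j := by
        rw [map_sub, sub_mul, ← Algebra.smul_def, ← IsScalarTower.algebraMap_apply,
          ← Algebra.smul_def]
        abel
      rw [h1, mul_add, map_add, mul_smul_comm, map_smul, hx1, smul_zero, zero_add]
      have h2 : x * (algebraMap A E (b.repr y j - algebraMap k A c) * b j) =
          (algebraMap A E (b.repr y j - algebraMap k A c) * x) * b j := by ring
      rw [h2, hx2 _ hc, zero_mul, map_zero]
    have hcoef : ∀ i, u i • s + v i • t = 0 := by
      intro i
      have h1 := congrArg (fun z => b.repr z i) hx0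
      change b.repr (∑ i, (u i • s + v i • t) • b i) i = b.repr 0 i at h1
      rw [b.repr_sum_self, map_zero, Finsupp.zero_apply] at h1
      exact h1
    have hne : ∃ i, u i ≠ 0 ∨ v i ≠ 0 := by
      by_contra hcon
      push Not at hcon
      apply huv0
      refine Prod.ext ?_ ?_
      · funext i
        exact (hcon i).1
      · funext i
        exact (hcon i).2
    obtain ⟨i, hi⟩ := hne
    have hvi : v i ≠ 0 := by
      intro h0
      have h1 := hcoef i
      rw [h0, zero_smul, add_zero, smul_eq_zero] at h1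
      rcases h1 with h1 | h1
      · rcases hi with hi | hi
        · exact hi h1
        · exact hi h0
      · exact hs0 h1
    refine ⟨-(v i)⁻¹ * u i, ?_⟩
    have h1 := hcoef i
    have h2 : v i • t = -(u i • s) := by
      rw [eq_neg_iff_add_eq_zero, add_comm]
      exact h1
    calc t = (v i)⁻¹ • (v i • t) := by rw [smul_smul, inv_mul_cancel₀ hvi, one_smul]
      _ = _ := by rw [h2, smul_neg, smul_smul, neg_mul, neg_smul]
  -- every nonzero ideal contains elements of the socle
  obtain ⟨e, he⟩ : ∃ e, M ^ e = ⊥ := by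
    have h1 := IsArtinianRing.isNilpotent_jacobson_bot (R := A)
    rw [IsLocalRing.jacobson_eq_maximalIdeal ⊥ bot_ne_top] at h1
    exact h1
  have hess : ∀ a : A, a ≠ 0 → ∃ y : A, a * y ≠ 0 ∧ ∀ x ∈ M, x * (a * y) = 0 := by
    intro a ha
    have hex : ∃ n, ∀ y ∈ M ^ n, a * y = 0 := ⟨e, fun y hy => by
      rw [he, Ideal.mem_bot] at hy
      rw [hy, mul_zero]⟩
    have hn := Nat.find_spec hex
    set n := Nat.find hex with hndef
    have hn0 : n ≠ 0 := by
      intro h0
      apply ha
      rw [h0, pow_zero] at hn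
      have := hn 1 (by simp)
      rwa [mul_one] at this
    have h1 := Nat.find_min hex (m := n - 1) (by omega)
    push Not at h1
    obtain ⟨y, hy, hy0⟩ := h1
    refine ⟨y, hy0, fun x hx => ?_⟩
    have h2 : x * y ∈ M ^ n := by
      have h3 : M ^ n = M * M ^ (n - 1) := by
        rw [← pow_succ']
        congr 1
        omega
      rw [h3]
      exact Ideal.mul_mem_mul hx hy
    have h4 := hn _ h2
    calc x * (a * y) = a * (x * y) := by ring
      _ = 0 := h4
  obtain ⟨s', hs'0, hs'⟩ := hess 1 one_ne_zero
  rw [one_mul] at hs'0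
  simp only [one_mul] at hs'
  obtain ⟨ψ, hψ⟩ : ∃ ψ : A →ₗ[k] k, ψ s' ≠ 0 := by
    by_contra hcon
    push Not at hcon
    exact hs'0 ((Module.forall_dual_apply_eq_zero_iff k s').1 hcon)
  refine ⟨ψ, fun a ha => ?_⟩
  by_contra ha0
  obtain ⟨y, hy0, hy⟩ := hess a ha0
  obtain ⟨c, hc⟩ := hsoc s' (a * y) hs' hy hs'0
  have h1 := ha y
  rw [hc, map_smul, smul_eq_mul, mul_eq_zero] at h1
  rcases h1 with h1 | h1
  · apply hy0
    rw [hc, h1, zero_smul]
  · exact hψ h1

end base

end Pool.Agent.L7h86.PS
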